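import Mathlib

open Finset

namespace Pool.Agent.Results.MP_295a7b_co.NineVertices

/-- The 7-vertex pattern with 13 edges. -/
def pat : Finset (Fin 7 × Fin 7 × Fin 7) :=
  {(0, 1, 3), (0, 1, 6), (0, 2, 3), (0, 2, 5), (0, 4, 5), (0, 4, 6), (1, 2, 4), (1, 2, 5),
   (1, 3, 4), (1, 5, 6), (2, 3, 6), (2, 4, 6), (3, 4, 5)}

def pv (a b c d e f g : ℕ) : ℕ :=
  a*b*d + a*b*g + a*c*d + a*c*f + a*e*f + a*e*g + b*c*e + b*c*f + b*d*e + b*f*g + c*d*g
    + c*e*g + d*e*f

lemma sum_pat (x : Fin 7 → ℕ) :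
    ∑ t ∈ pat, x t.1 * (x t.2.1 * x t.2.2) = pv (x 0) (x 1) (x 2) (x 3) (x 4) (x 5) (x 6) := by
  unfold pat pv
  repeat rw [Finset.sum_insert (by decide)]
  rw [Finset.sum_singleton]
  ring

def chk : Bool :=
  (List.range 10).all fun a => (List.range (10 - a)).all fun b =>
    (List.range (10 - a - b)).all fun c => (List.range (10 - a - b - c)).all fun d =>
      (List.range (10 - a - b - c - d)).all fun e =>
        (List.range (10 - a - b - c - d - e)).all fun f =>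
          decide (pv a b c d e f (9 - a - b - c - d - e - f) ≤ 27)

lemma chk_true : chk = true := by decide +kernel

lemma nine (a b c d e f g : ℕ) (h : a + b + c + d + e + f + g = 9) :
    pv a b c d e f g ≤ 27 := by
  have H := chk_true
  simp only [chk, List.all_eq_true, List.mem_range, decide_eq_true_eq] at H
  have := H a (by omega) b (by omega) c (by omega) d (by omega) e (by omega) f (by omega)
  have hg : 9 - a - b - c - d - e - f = g := by omega
  rwa [hg] at this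

lemma sorted_pat : ∀ t ∈ pat, t.1 < t.2.1 ∧ t.2.1 < t.2.2 := by decide +kernel

section
variable {V : Type} [DecidableEq V]

def trip (c : V → Fin 7) (S : Finset V) : Finset (V × V × V) :=
  (S ×ˢ S ×ˢ S).filter fun p => (c p.1, c p.2.1, c p.2.2) ∈ pat

def tri (p : V × V × V) : Finset V := {p.1, p.2.1, p.2.2}

lemma card_trip (c : V → Fin 7) (S : Finset V) :
    (trip c S).card = ∑ t ∈ pat, (S.filter (c · = t.1)).card *
      ((S.filter (c · = t.2.1)).card * (S.filter (c · = t.2.2)).card) := by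
  rw [Finset.card_eq_sum_card_fiberwise (f := fun p : V × V × V => (c p.1, c p.2.1, c p.2.2))
    (t := pat)]
  · refine Finset.sum_congr rfl fun t ht => ?_
    rw [← Finset.card_product, ← Finset.card_product]
    congr 1
    ext ⟨x, y, z⟩
    obtain ⟨t1, t2, t3⟩ := t
    simp only [trip, mem_filter, mem_product, Prod.mk.injEq]
    constructor
    · rintro ⟨⟨⟨h1, h2, h3⟩, -⟩, h4, h5, h6⟩
      exact ⟨⟨h1, h4⟩, ⟨h2, h5⟩, h3, h6⟩
    · rintro ⟨⟨h1, h4⟩, ⟨h2, h5⟩, h3, h6⟩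
      refine ⟨⟨⟨h1, h2, h3⟩, ?_⟩, h4, h5, h6⟩
      rw [h4, h5, h6]; exact ht
  · intro p hp
    simp only [trip, coe_filter, Set.mem_setOf_eq] at hp
    exact hp.2

lemma tri_inj (c : V → Fin 7) (S : Finset V) : Set.InjOn tri (trip c S : Set (V × V × V)) := by
  rintro ⟨x, y, z⟩ hp ⟨x', y', z'⟩ hq h
  simp only [trip, coe_filter, Set.mem_setOf_eq] at hp hq
  have h1 := sorted_pat _ hp.2
  have h2 := sorted_pat _ hq.2
  simp only [Fin.lt_def] at h1 h2
  have hx : x ∈ tri (x', y', z') := h ▸ (by simp [tri])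
  have hy : y ∈ tri (x', y', z') := h ▸ (by simp [tri])
  have hz : z ∈ tri (x', y', z') := h ▸ (by simp [tri])
  simp only [tri, mem_insert, mem_singleton] at hx hy hz
  rcases hx with rfl | rfl | rfl <;> rcases hy with rfl | rfl | rfl <;>
    rcases hz with rfl | rfl | rfl <;> first | rfl | (exfalso; omega)

lemma tri_card (c : V → Fin 7) (S : Finset V) (p : V × V × V) (hp : p ∈ trip c S) :
    (tri p).card = 3 := by
  obtain ⟨x, y, z⟩ := p
  simp only [trip, mem_filter] at hp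
  have h1 := sorted_pat _ hp.2
  simp only [Fin.lt_def] at h1
  rw [tri, Finset.card_eq_three]
  refine ⟨x, y, z, ?_, ?_, ?_, rfl⟩ <;> rintro rfl <;> omega

end

lemma colouring (N : ℕ) (w : Fin 7 → ℕ) (h : ∑ i, w i = N) :
    ∃ c : Fin N → Fin 7, ∀ i, (univ.filter (c · = i)).card = w i := by
  have hc : Fintype.card (Σ i : Fin 7, Fin (w i)) = N := by simp [h]
  let e := (Fintype.equivFinOfCardEq hc).symm
  refine ⟨fun x => (e x).1, fun i => ?_⟩
  have h1 : (univ.filter (fun x : Fin N => (e x).1 = i)).card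
      = (univ.filter (fun y : (Σ i : Fin 7, Fin (w i)) => y.1 = i)).card := by
    refine Finset.card_equiv e ?_
    intro x; simp
  rw [h1]
  have h2 : (univ.filter (fun y : (Σ i : Fin 7, Fin (w i)) => y.1 = i))
      = (univ : Finset (Fin (w i))).map (Function.Embedding.sigmaMk i) := by
    ext ⟨j, y⟩
    simp only [mem_filter, mem_univ, true_and, mem_map, Function.Embedding.sigmaMk_apply]
    constructor
    · rintro rfl; exact ⟨y, rfl⟩
    · rintro ⟨a, ha⟩; exact (congrArg Sigma.fst ha).symm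
  rw [h2]; simp

lemma weights (n : ℕ) (hn : 4 ≤ n) : ∃ w : Fin 7 → ℕ, ∑ i, w i = 3 * n ∧
    n ^ 3 + 1 ≤ pv (w 0) (w 1) (w 2) (w 3) (w 4) (w 5) (w 6) := by
  obtain ⟨k, hk⟩ : ∃ k, n = 7 * k + 4 ∨ n = 7 * k + 5 ∨ n = 7 * k + 6 ∨ n = 7 * k + 7 ∨
      n = 7 * k + 8 ∨ n = 7 * k + 9 ∨ n = 7 * k + 10 := ⟨(n - 4) / 7, by omega⟩
  rcases hk with rfl | rfl | rfl | rfl | rfl | rfl | rfl
  · refine ⟨![3*k+2, 3*k+2, 3*k+2, 3*k+2, 3*k+2, 3*k+1, 3*k+1], ?_, ?_⟩
    · simp [Fin.sum_univ_succ]; ring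
    · simp [pv]; nlinarith [Nat.zero_le (k^3), Nat.zero_le (k^2)]
  · refine ⟨![3*k+3, 3*k+2, 3*k+2, 3*k+2, 3*k+2, 3*k+2, 3*k+2], ?_, ?_⟩
    · simp [Fin.sum_univ_succ]; ring
    · simp [pv]; nlinarith [Nat.zero_le (k^3), Nat.zero_le (k^2)]
  · refine ⟨![3*k+3, 3*k+3, 3*k+3, 3*k+3, 3*k+2, 3*k+2, 3*k+2], ?_, ?_⟩
    · simp [Fin.sum_univ_succ]; ring
    · simp [pv]; nlinarith [Nat.zero_le (k^3), Nat.zero_le (k^2)]
  · refine ⟨![3*k+3, 3*k+3, 3*k+3, 3*k+3, 3*k+3, 3*k+3, 3*k+3], ?_, ?_⟩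
    · simp [Fin.sum_univ_succ]; ring
    · simp [pv]; nlinarith [Nat.zero_le (k^3), Nat.zero_le (k^2)]
  · refine ⟨![3*k+4, 3*k+4, 3*k+4, 3*k+3, 3*k+3, 3*k+3, 3*k+3], ?_, ?_⟩
    · simp [Fin.sum_univ_succ]; ring
    · simp [pv]; nlinarith [Nat.zero_le (k^3), Nat.zero_le (k^2)]
  · refine ⟨![3*k+4, 3*k+4, 3*k+4, 3*k+4, 3*k+4, 3*k+4, 3*k+3], ?_, ?_⟩
    · simp [Fin.sum_univ_succ]; ring
    · simp [pv]; nlinarith [Nat.zero_le (k^3), Nat.zero_le (k^2)]
  · refine ⟨![3*k+5, 3*k+5, 3*k+4, 3*k+4, 3*k+4, 3*k+4, 3*k+4], ?_, ?_⟩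
    · simp [Fin.sum_univ_succ]; ring
    · simp [pv]; nlinarith [Nat.zero_le (k^3), Nat.zero_le (k^2)]

theorem result (n : ℕ) (hn : 4 ≤ n) :
    ∃ H : Finset (Finset (Fin (3 * n))),
      (∀ e ∈ H, e.card = 3) ∧ H.card = n ^ 3 + 1 ∧
      ∀ S : Finset (Fin (3 * n)), S.card = 9 → (H.filter (fun e => e ⊆ S)).card ≤ 27 := by
  obtain ⟨w, hw, hp⟩ := weights n hn
  obtain ⟨c, hc⟩ := colouring (3 * n) w hw
  have h0 : ((trip c univ).image tri).card = pv (w 0) (w 1) (w 2) (w 3) (w 4) (w 5) (w 6) := by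
    rw [Finset.card_image_of_injOn (tri_inj c univ), card_trip, ← sum_pat]
    simp only [hc]
  obtain ⟨H, hH, hcard⟩ := Finset.exists_subset_card_eq (h0 ▸ hp)
  refine ⟨H, ?_, hcard, ?_⟩
  · intro e he
    obtain ⟨p, hp, rfl⟩ := Finset.mem_image.1 (hH he)
    exact tri_card c univ p hp
  · intro S hS
    have h1 : H.filter (fun e => e ⊆ S) ⊆ (trip c S).image tri := by
      intro e he
      rw [mem_filter] at he
      obtain ⟨⟨x, y, z⟩, hp, rfl⟩ := Finset.mem_image.1 (hH he.1)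
      refine Finset.mem_image.2 ⟨(x, y, z), ?_, rfl⟩
      simp only [trip, mem_filter, mem_product] at hp ⊢
      exact ⟨⟨he.2 (by simp [tri]), he.2 (by simp [tri]), he.2 (by simp [tri])⟩, hp.2⟩
    refine (Finset.card_le_card h1).trans (Finset.card_image_le.trans ?_)
    rw [card_trip, sum_pat (fun i => (S.filter (c · = i)).card)]
    apply nine
    have := Finset.card_eq_sum_card_fiberwise (f := c) (s := S) (t := univ) (by intro x _; simp)
    rw [hS, Fin.sum_univ_seven] at this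
    exact this.symm

end Pool.Agent.Results.MP_295a7b_co.NineVertices
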